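import Pool.Agent.V7H22.NPU.Upper
import Pool.Agent.R360.NP.Inertia

/-!
# `n⁺ ≤ 4 k (2 k ^ 2) ^ √k` with `k = n⁻`
-/

set_option autoImplicit false

open Finset Matrix

namespace Pool.Agent.V7H22.NPU

open Pool.Agent.R360.NP (npos nneg npos_eq nneg_eq)

/-- a maximal independent family of columns -/
lemma exists_cols {n : ℕ} (A : Matrix (Fin n) (Fin n) ℝ) :
    ∃ (κ : Type) (_ : Fintype κ) (_ : DecidableEq κ) (a : κ → Fin n), Function.Injective a ∧
      LinearIndependent ℝ (fun x : κ => A.col (a x)) ∧ Fintype.card κ = A.rank := by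
  classical
  obtain ⟨κ, a, ha, hspan, hli⟩ := exists_linearIndependent' ℝ (fun j : Fin n => A.col j)
  have : Finite κ := Finite.of_injective a ha
  let _ : Fintype κ := Fintype.ofFinite κ
  refine ⟨κ, inferInstance, Classical.decEq _, a, ha, hli, ?_⟩
  have e := congrArg (fun S : Submodule ℝ (Fin n → ℝ) => Module.finrank ℝ S) hspan
  rw [Matrix.rank_eq_finrank_span_cols, ← finrank_span_eq_card hli]
  exact e

theorem upper {n : ℕ} (G : SimpleGraph (Fin n)) :
    (npos G : ℝ) ≤ 4 * (nneg G : ℝ) * (2 * (nneg G : ℝ) ^ 2) ^ Real.sqrt (nneg G : ℝ) := by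
  classical
  set A := G.adjMatrix ℝ with hAdef
  have hA : A.IsHermitian := G.isHermitian_adjMatrix ℝ
  have hs : ∀ x y, A x y = A y x := by
    intro x y
    simp [hAdef, SimpleGraph.adjMatrix_apply, G.adj_comm]
  have hd : ∀ x, A x x = 0 := by
    intro x
    simp [hAdef, SimpleGraph.adjMatrix_apply]
  have h01 : ∀ x y, A x y = 0 ∨ A x y = 1 := by
    intro x y
    rw [hAdef, SimpleGraph.adjMatrix_apply]
    split_ifs
    · right; rfl
    · left; rfl
  obtain ⟨w, hO, hO', hC⟩ := spec A hA
  obtain ⟨κ, _, _, a, ha, hli, hcard⟩ := exists_cols A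
  let J := {i : Fin n // hA.eigenvalues i < 0}
  have hJ : Fintype.card J = nneg G := by
    rw [nneg_eq G hA]
    exact Fintype.card_subtype _
  have key := core (X := κ) (J := J) (A.submatrix a a)
    (fun x y => hs _ _) (fun x => hd _) (fun x y => h01 _ _)
    (fun j x => w j.1 (a x)) (by
      intro v hv0 hvl
      have hq := quad (X := κ) (ι := Fin n) hA.eigenvalues (fun i x => w i (a x))
        (A.submatrix a a) (fun x y => by simp [Matrix.submatrix_apply, hC]) univ v
      rw [hq]
      have hnn : ∀ i, 0 ≤ hA.eigenvalues i * (∑ x, w i (a x) * v x) ^ 2 := by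
        intro i
        rcases lt_or_ge (hA.eigenvalues i) 0 with hi | hi
        · have := hvl ⟨i, hi⟩
          simp only at this
          rw [this]; simp
        · exact mul_nonneg hi (sq_nonneg _)
      rcases (sum_nonneg fun i _ => hnn i).lt_or_eq with h | h
      · exact h
      · exfalso
        have hz := (sum_eq_zero_iff_of_nonneg (fun i _ => hnn i)).1 h.symm
        have hz' : ∀ i, hA.eigenvalues i * (∑ x, w i (a x) * v x) = 0 := by
          intro i
          have := hz i (mem_univ _)
          rcases mul_eq_zero.1 this with h1 | h1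
          · rw [h1]; ring
          · rw [pow_eq_zero_iff two_ne_zero] at h1
            rw [h1]; ring
        apply hv0
        have hlin := Fintype.linearIndependent_iff.1 hli v (by
          funext z
          simp only [Finset.sum_apply, Pi.smul_apply, smul_eq_mul, Matrix.col_apply, Pi.zero_apply]
          calc ∑ x, v x * A z (a x) = ∑ x, ∑ i, w i z * (hA.eigenvalues i * (w i (a x) * v x)) := by
                refine sum_congr rfl fun x _ => ?_
                rw [hC, mul_sum]
                exact sum_congr rfl fun i _ => by ring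
            _ = ∑ i, ∑ x, w i z * (hA.eigenvalues i * (w i (a x) * v x)) := sum_comm
            _ = ∑ i, w i z * (hA.eigenvalues i * ∑ x, w i (a x) * v x) := by
                refine sum_congr rfl fun i _ => ?_
                rw [mul_sum, mul_sum]
            _ = 0 := by
                refine sum_eq_zero fun i _ => ?_
                rw [hz' i]; ring)
        funext x
        exact hlin x)
  rw [hJ] at key
  refine le_trans ?_ key
  rw [hcard, hA.rank_eq_card_non_zero_eigs, npos_eq G hA, Fintype.card_subtype]
  norm_cast
  refine card_le_card fun i hi => ?_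
  simp only [mem_filter, mem_univ, true_and] at hi ⊢
  exact ne_of_gt hi

end Pool.Agent.V7H22.NPU
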