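import Mathlib

/-!
# A Motzkin-Straus inequality and completely positive Gaussian kernels
-/

set_option autoImplicit false

open Finset

namespace Pool.Agent.V7H22.NPU

variable {V : Type*} [DecidableEq V]

lemma sum_insert2 (K : V → V → ℝ) (hs : ∀ x y, K x y = K y x) (r : Finset V) (x : V)
    (hx : x ∉ r) (f : V → ℝ) :
    ∑ u ∈ insert x r, ∑ v ∈ insert x r, K u v * f u * f v =
      K x x * f x * f x + 2 * (f x * ∑ u ∈ r, K x u * f u) +
        ∑ u ∈ r, ∑ v ∈ r, K u v * f u * f v := by
  rw [sum_insert hx, sum_insert hx]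
  have h1 : ∑ v ∈ r, K x v * f x * f v = f x * ∑ u ∈ r, K x u * f u := by
    rw [mul_sum]
    exact sum_congr rfl fun v _ => by ring
  have h2 : ∑ u ∈ r, ∑ v ∈ insert x r, K u v * f u * f v =
      f x * ∑ u ∈ r, K x u * f u + ∑ u ∈ r, ∑ v ∈ r, K u v * f u * f v := by
    rw [mul_sum, ← sum_add_distrib]
    refine sum_congr rfl fun u _ => ?_
    rw [sum_insert hx, hs u x]
    ring
  rw [h1, h2]
  ring

/-- Motzkin-Straus: if every subset of `s` without a pair `K x y = 1` has at most `c` elements
then `(∑ w) ^ 2 ≤ c ∑ K w w` -/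
lemma motzkin (K : V → V → ℝ) (hs : ∀ x y, K x y = K y x)
    (hd : ∀ x, K x x = 1) (h01 : ∀ x y, K x y = 0 ∨ K x y = 1) (c : ℕ) :
    ∀ (m : ℕ) (s : Finset V), s.card = m →
      (∀ T ⊆ s, (∀ x ∈ T, ∀ y ∈ T, x ≠ y → K x y = 0) → T.card ≤ c) →
      ∀ w : V → ℝ, (∀ x, 0 ≤ w x) →
        (∑ x ∈ s, w x) ^ 2 ≤ c * ∑ x ∈ s, ∑ y ∈ s, K x y * w x * w y := by
  intro m
  induction m with
  | zero =>
    intro s hs0 _ w _
    rw [card_eq_zero] at hs0
    subst hs0
    simp
  | succ m ih =>
    intro s hsm hT w hw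
    by_cases hpair : ∀ x ∈ s, ∀ y ∈ s, x ≠ y → K x y = 0
    · have h1 : ∑ x ∈ s, ∑ y ∈ s, K x y * w x * w y = ∑ x ∈ s, w x ^ 2 := by
        refine sum_congr rfl fun x hx => ?_
        rw [sum_eq_single x]
        · rw [hd]; ring
        · intro y hy hyx
          rw [hpair x hx y hy (Ne.symm hyx)]; ring
        · intro h; exact absurd hx h
      rw [h1]
      have h2 := hT s (Subset.refl _) hpair
      have h3 : (∑ x ∈ s, w x) ^ 2 ≤ s.card * ∑ x ∈ s, w x ^ 2 := sq_sum_le_card_mul_sum_sq
      have h4 : (s.card : ℝ) ≤ c := by exact_mod_cast h2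
      have h5 : 0 ≤ ∑ x ∈ s, w x ^ 2 := sum_nonneg fun x _ => sq_nonneg _
      nlinarith
    · push Not at hpair
      obtain ⟨x₀, hx₀, y₀, hy₀, hne₀, hK₀⟩ := hpair
      -- the merging step
      have step : ∀ x ∈ s, ∀ y ∈ s, x ≠ y → K x y = 1 →
          (∑ u ∈ (s.erase x).erase y, K x u * w u ≤ ∑ u ∈ (s.erase x).erase y, K y u * w u) →
          (∑ x ∈ s, w x) ^ 2 ≤ c * ∑ x ∈ s, ∑ y ∈ s, K x y * w x * w y := by
        intro x hx y hy hxy hK hL
        set r := (s.erase x).erase y with hr
        have hyr : y ∉ r := by simp [hr]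
        have hxr : x ∉ r := by simp [hr]
        have hs1 : insert y r = s.erase x := by
          rw [hr, insert_erase]
          exact mem_erase.2 ⟨Ne.symm hxy, hy⟩
        have hs2 : insert x (insert y r) = s := by
          rw [hs1, insert_erase hx]
        have hxyr : x ∉ insert y r := by
          rw [hs1]; simp
        have hcard : (insert x r).card = m := by
          have e1 : s.card = r.card + 1 + 1 := by
            conv_lhs => rw [← hs2]
            rw [card_insert_of_notMem hxyr, card_insert_of_notMem hyr]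
          rw [card_insert_of_notMem hxr]
          omega
        have hsub : insert x r ⊆ s := by
          rw [← hs2]
          exact insert_subset_insert _ (subset_insert _ _)
        let w' : V → ℝ := fun z => if z = x then w x + w y else w z
        have hw' : ∀ z, 0 ≤ w' z := by
          intro z
          simp only [w']
          split_ifs
          · exact add_nonneg (hw x) (hw y)
          · exact hw z
        have hw'x : w' x = w x + w y := by simp [w']
        have hw'r : ∀ z ∈ r, w' z = w z := by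
          intro z hz
          have : z ≠ x := fun e => hxr (e ▸ hz)
          simp [w', this]
        have key := ih (insert x r) hcard (fun T hTs hT0 => hT T (hTs.trans hsub) hT0) w' hw'
        rw [sum_insert2 K hs r x hxr w', sum_insert hxr, hw'x, hd x] at key
        have e1 : ∑ u ∈ r, w' u = ∑ u ∈ r, w u := sum_congr rfl fun u hu => hw'r u hu
        have e2 : ∑ u ∈ r, K x u * w' u = ∑ u ∈ r, K x u * w u :=
          sum_congr rfl fun u hu => by rw [hw'r u hu]
        have e3 : ∑ u ∈ r, ∑ v ∈ r, K u v * w' u * w' v = ∑ u ∈ r, ∑ v ∈ r, K u v * w u * w v :=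
          sum_congr rfl fun u hu => sum_congr rfl fun v hv => by rw [hw'r u hu, hw'r v hv]
        rw [e1, e2, e3] at key
        have g1 : ∑ u ∈ s, w u = w x + w y + ∑ u ∈ r, w u := by
          conv_lhs => rw [← hs2]
          rw [sum_insert hxyr, sum_insert hyr]
          ring
        have g2 : ∑ u ∈ s, ∑ v ∈ s, K u v * w u * w v =
            w x * w x + w y * w y + 2 * (w x * w y) + 2 * (w x * ∑ u ∈ r, K x u * w u) +
            2 * (w y * ∑ u ∈ r, K y u * w u) + ∑ u ∈ r, ∑ v ∈ r, K u v * w u * w v := by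
          conv_lhs => rw [← hs2]
          rw [sum_insert2 K hs (insert y r) x hxyr w, sum_insert2 K hs r y hyr w,
            sum_insert hyr, hd, hd, hK]
          ring
        rw [g1, g2]
        refine key.trans ?_
        refine mul_le_mul_of_nonneg_left ?_ (Nat.cast_nonneg c)
        have hwy := hw y
        nlinarith [mul_le_mul_of_nonneg_left hL hwy]
      have hK1 : K x₀ y₀ = 1 := (h01 x₀ y₀).resolve_left hK₀
      rcases le_total (∑ u ∈ (s.erase x₀).erase y₀, K x₀ u * w u)
        (∑ u ∈ (s.erase x₀).erase y₀, K y₀ u * w u) with h | h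
      · exact step x₀ hx₀ y₀ hy₀ hne₀ hK1 h
      · refine step y₀ hy₀ x₀ hx₀ (Ne.symm hne₀) (by rw [hs, hK1]) ?_
        rwa [erase_right_comm]

omit [DecidableEq V] in
/-- copositive kernels -/
def Cop (s : Finset V) (C : V → V → ℝ) : Prop :=
  ∀ w : V → ℝ, (∀ x, 0 ≤ w x) → 0 ≤ ∑ x ∈ s, ∑ y ∈ s, C x y * w x * w y

open MeasureTheory ProbabilityTheory in
omit [DecidableEq V] in
/-- the Hadamard product of a copositive kernel and `exp (u x * u y)` is copositive -/
lemma cop_exp_one (s : Finset V) (C : V → V → ℝ) (hC : Cop s C) (u : V → ℝ) :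
    Cop s (fun x y => C x y * Real.exp (u x * u y)) := by
  intro w hw
  have hmgf : ∀ a : ℝ, ∫ g, Real.exp (a * g) ∂(gaussianReal 0 1) = Real.exp (a ^ 2 / 2) := by
    intro a
    have := congrFun (mgf_fun_id_gaussianReal (μ := 0) (v := 1)) a
    simp only [mgf] at this
    rw [this]
    congr 1
    simp
  have hint : ∀ a : ℝ, Integrable (fun g => Real.exp (a * g)) (gaussianReal 0 1) := fun a =>
    integrable_exp_mul_gaussianReal a
  let c : V → V → ℝ := fun x y => C x y * w x * w y * Real.exp (-(u x) ^ 2 / 2 - (u y) ^ 2 / 2)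
  have h1 : ∑ x ∈ s, ∑ y ∈ s, C x y * Real.exp (u x * u y) * w x * w y =
      ∫ g, ∑ x ∈ s, ∑ y ∈ s, c x y * Real.exp ((u x + u y) * g) ∂(gaussianReal 0 1) := by
    rw [integral_finsetSum]
    · refine sum_congr rfl fun x _ => ?_
      rw [integral_finsetSum]
      · refine sum_congr rfl fun y _ => ?_
        rw [integral_const_mul, hmgf]
        simp only [c]
        rw [mul_assoc (C x y * w x * w y), ← Real.exp_add]
        have : -(u x) ^ 2 / 2 - (u y) ^ 2 / 2 + (u x + u y) ^ 2 / 2 = u x * u y := by ring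
        rw [this]
        ring
      · intro y _
        exact (hint _).const_mul _
    · intro x _
      exact integrable_finsetSum _ fun y _ => (hint _).const_mul _
  rw [h1]
  refine integral_nonneg fun g => ?_
  have h2 := hC (fun x => w x * Real.exp (-(u x) ^ 2 / 2) * Real.exp (u x * g))
    (fun x => mul_nonneg (mul_nonneg (hw x) (Real.exp_pos _).le) (Real.exp_pos _).le)
  refine h2.trans (le_of_eq ?_)
  refine sum_congr rfl fun x _ => sum_congr rfl fun y _ => ?_
  simp only [c]
  have e1 : Real.exp (-(u x) ^ 2 / 2 - (u y) ^ 2 / 2) =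
      Real.exp (-(u x) ^ 2 / 2) * Real.exp (-(u y) ^ 2 / 2) := by
    rw [← Real.exp_add]; ring_nf
  have e2 : Real.exp ((u x + u y) * g) = Real.exp (u x * g) * Real.exp (u y * g) := by
    rw [← Real.exp_add]; ring_nf
  rw [e1, e2]
  ring

omit [DecidableEq V] in
lemma cop_exp {ι : Type*} [DecidableEq ι] (s : Finset V) (C : V → V → ℝ) (hC : Cop s C)
    (I : Finset ι) (u : ι → V → ℝ) :
    Cop s (fun x y => C x y * Real.exp (∑ i ∈ I, u i x * u i y)) := by
  induction I using Finset.induction_on with
  | empty => simpa using hC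
  | insert i J hi ih =>
    have h := cop_exp_one s _ ih (u i)
    intro w hw
    refine (h w hw).trans (le_of_eq ?_)
    refine sum_congr rfl fun x _ => sum_congr rfl fun y _ => ?_
    beta_reduce
    rw [sum_insert hi, Real.exp_add]
    ring

omit [DecidableEq V] in
/-- a copositive kernel has nonnegative sum against a Gaussian exponential kernel -/
lemma cop_sum {ι : Type*} [DecidableEq ι] (s : Finset V) (C : V → V → ℝ) (hC : Cop s C)
    (I : Finset ι) (u : ι → V → ℝ) :
    0 ≤ ∑ x ∈ s, ∑ y ∈ s, C x y * Real.exp (∑ i ∈ I, u i x * u i y) := by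
  have := cop_exp s C hC I u (fun _ => 1) (fun _ => zero_le_one)
  simpa using this

end Pool.Agent.V7H22.NPU
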