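import Pool.Agent.V7H22.NPU.Motzkin

/-!
# Eigenvector expansions and dimension counting
-/

set_option autoImplicit false

open Finset Matrix

namespace Pool.Agent.V7H22.NPU

/-- eigenvalues and eigenvectors of a real symmetric matrix, in coordinates -/
lemma spec {X : Type*} [Fintype X] [DecidableEq X] (A : Matrix X X ℝ) (hA : A.IsHermitian) :
    ∃ w : X → X → ℝ,
      (∀ i j, ∑ x, w i x * w j x = if i = j then 1 else 0) ∧
      (∀ x y, ∑ i, w i x * w i y = if x = y then 1 else 0) ∧
      (∀ x y, A x y = ∑ i, hA.eigenvalues i * w i x * w i y) := by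
  refine ⟨fun i x => (hA.eigenvectorUnitary : Matrix X X ℝ) x i, ?_, ?_, ?_⟩
  · intro i j
    have h : star (hA.eigenvectorUnitary : Matrix X X ℝ) * (hA.eigenvectorUnitary : Matrix X X ℝ)
        = 1 := Unitary.coe_star_mul_self _
    have := congrFun (congrFun h i) j
    rw [Matrix.mul_apply, Matrix.one_apply] at this
    rw [← this]
    refine sum_congr rfl fun x _ => ?_
    simp [Matrix.star_apply]
  · intro x y
    have h : (hA.eigenvectorUnitary : Matrix X X ℝ) * star (hA.eigenvectorUnitary : Matrix X X ℝ)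
        = 1 := Unitary.coe_mul_star_self _
    have := congrFun (congrFun h x) y
    rw [Matrix.mul_apply, Matrix.one_apply] at this
    rw [← this]
    refine sum_congr rfl fun i _ => ?_
    simp [Matrix.star_apply]
  · intro x y
    have h := congrFun (congrFun hA.spectral_theorem x) y
    rw [Unitary.conjStarAlgAut_apply, Matrix.mul_apply] at h
    rw [h]
    refine sum_congr rfl fun i _ => ?_
    rw [Matrix.mul_diagonal]
    simp only [Function.comp_apply, RCLike.ofReal_real_eq_id, id, Matrix.star_apply, star_trivial]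
    ring

/-- a homogeneous system with more unknowns than equations has a nonzero solution -/
lemma exists_sol {ι κ : Type*} [Fintype ι] [Fintype κ] (h : Fintype.card κ < Fintype.card ι)
    (M : κ → ι → ℝ) : ∃ c : ι → ℝ, c ≠ 0 ∧ ∀ j, ∑ i, M j i * c i = 0 := by
  have hker : LinearMap.ker (Matrix.of M).mulVecLin ≠ ⊥ := by
    apply LinearMap.ker_ne_bot_of_finrank_lt
    rw [Module.finrank_fintype_fun_eq_card, Module.finrank_fintype_fun_eq_card]
    exact h
  obtain ⟨c, hc, hc0⟩ := (Submodule.ne_bot_iff _).1 hker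
  refine ⟨c, hc0, fun j => ?_⟩
  have := congrFun (LinearMap.mem_ker.1 hc) j
  simpa [Matrix.mulVec, dotProduct] using this

/-- a nonzero vector supported on `T` killed by fewer than `T.card` functionals -/
lemma exists_supp {X κ : Type*} [Fintype X] [DecidableEq X] [Fintype κ] (T : Finset X)
    (h : Fintype.card κ < T.card) (M : κ → X → ℝ) :
    ∃ v : X → ℝ, v ≠ 0 ∧ (∀ x, x ∉ T → v x = 0) ∧ ∀ j, ∑ x, M j x * v x = 0 := by
  obtain ⟨c, hc0, hc⟩ := exists_sol (ι := {x // x ∈ T}) (κ := κ)
    (by rw [Fintype.card_coe]; exact h) (fun j x => M j x.1)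
  refine ⟨fun x => if hx : x ∈ T then c ⟨x, hx⟩ else 0, ?_, ?_, ?_⟩
  · intro h0
    apply hc0
    funext x
    have := congrFun h0 x.1
    simpa [x.2] using this
  · intro x hx
    simp [hx]
  · intro j
    refine Eq.trans ?_ (hc j)
    have h1 : ∑ x, M j x * (if hx : x ∈ T then c ⟨x, hx⟩ else 0) =
        ∑ x ∈ T, M j x * (if hx : x ∈ T then c ⟨x, hx⟩ else 0) := by
      symm
      apply sum_subset (subset_univ _)
      intro x _ hx
      simp [hx]
    refine Eq.trans h1 ?_
    rw [← sum_coe_sort T]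
    refine sum_congr rfl fun x _ => ?_
    simp [x.2]

/-- the quadratic form in terms of eigenvectors -/
lemma quad {X ι : Type*} [Fintype X] [Fintype ι] (lam : ι → ℝ) (w : ι → X → ℝ) (A : X → X → ℝ)
    (hC : ∀ x y, A x y = ∑ i, lam i * w i x * w i y) (s : Finset X) (v : X → ℝ) :
    ∑ x ∈ s, ∑ y ∈ s, A x y * v x * v y = ∑ i, lam i * (∑ x ∈ s, w i x * v x) ^ 2 := by
  have h : ∀ i, lam i * (∑ x ∈ s, w i x * v x) ^ 2 =
      ∑ x ∈ s, ∑ y ∈ s, lam i * w i x * w i y * v x * v y := by
    intro i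
    rw [sq, sum_mul_sum, mul_sum]
    refine sum_congr rfl fun x _ => ?_
    rw [mul_sum]
    refine sum_congr rfl fun y _ => ?_
    ring
  symm
  calc ∑ i, lam i * (∑ x ∈ s, w i x * v x) ^ 2
      = ∑ i, ∑ x ∈ s, ∑ y ∈ s, lam i * w i x * w i y * v x * v y := sum_congr rfl fun i _ => h i
    _ = ∑ x ∈ s, ∑ i, ∑ y ∈ s, lam i * w i x * w i y * v x * v y := sum_comm
    _ = ∑ x ∈ s, ∑ y ∈ s, ∑ i, lam i * w i x * w i y * v x * v y :=
        sum_congr rfl fun x _ => sum_comm
    _ = ∑ x ∈ s, ∑ y ∈ s, A x y * v x * v y := by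
        refine sum_congr rfl fun x _ => sum_congr rfl fun y _ => ?_
        rw [hC, sum_mul, sum_mul]

end Pool.Agent.V7H22.NPU
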