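import Pool.Agent.V7H22.NPU.Spectral

/-!
# A graph whose form is positive off `k` functionals has at most `4 k (2 k ^ 2) ^ √k` vertices
-/

set_option autoImplicit false

open Finset Matrix

namespace Pool.Agent.V7H22.NPU

variable {X J : Type*} [Fintype X] [DecidableEq X] [Fintype J]

/-- independent sets are small -/
lemma indep_le (A : Matrix X X ℝ) (hd : ∀ x, A x x = 0) (l : J → X → ℝ)
    (hpos : ∀ v : X → ℝ, v ≠ 0 → (∀ j, ∑ x, l j x * v x = 0) →
      0 < ∑ x, ∑ y, A x y * v x * v y)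
    (T : Finset X) (hT : ∀ x ∈ T, ∀ y ∈ T, x ≠ y → A x y = 0) : T.card ≤ Fintype.card J := by
  by_contra hlt
  push Not at hlt
  obtain ⟨v, hv0, hvT, hvl⟩ := exists_supp T hlt l
  have h1 := hpos v hv0 hvl
  have h2 : ∑ x, ∑ y, A x y * v x * v y = 0 := by
    refine sum_eq_zero fun x _ => sum_eq_zero fun y _ => ?_
    by_cases hx : x ∈ T
    · by_cases hy : y ∈ T
      · by_cases hxy : x = y
        · subst hxy; rw [hd]; ring
        · rw [hT x hx y hy hxy]; ring
      · rw [hvT y hy]; ring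
    · rw [hvT x hx]; ring
  linarith

/-- cliques are small -/
lemma clique_le (A : Matrix X X ℝ) (hd : ∀ x, A x x = 0) (l : J → X → ℝ)
    (hpos : ∀ v : X → ℝ, v ≠ 0 → (∀ j, ∑ x, l j x * v x = 0) →
      0 < ∑ x, ∑ y, A x y * v x * v y)
    (T : Finset X) (hT : ∀ x ∈ T, ∀ y ∈ T, x ≠ y → A x y = 1) :
    T.card ≤ Fintype.card J + 1 := by
  by_contra hlt
  push Not at hlt
  obtain ⟨v, hv0, hvT, hvl⟩ := exists_supp (κ := Option J) T
    (by rw [Fintype.card_option]; exact hlt)
    (fun j x => j.elim 1 (fun j => l j x))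
  have h1 := hpos v hv0 (fun j => hvl (some j))
  have h0 : ∑ x, v x = 0 := by simpa using hvl none
  have h2 : ∑ x, ∑ y, A x y * v x * v y = (∑ x, v x) * (∑ y, v y) - ∑ x, v x ^ 2 := by
    rw [sum_mul_sum, ← sum_sub_distrib]
    refine sum_congr rfl fun x _ => ?_
    have e : v x ^ 2 = ∑ y, if x = y then v x * v y else 0 := by
      rw [sum_ite_eq]; simp [sq]
    rw [e, ← sum_sub_distrib]
    refine sum_congr rfl fun y _ => ?_
    by_cases hxy : x = y
    · subst hxy; rw [hd]; simp
    · rw [if_neg hxy]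
      by_cases hx : x ∈ T
      · by_cases hy : y ∈ T
        · rw [hT x hx y hy hxy]; ring
        · rw [hvT y hy]; ring
      · rw [hvT x hx]; ring
  rw [h0] at h2
  have h3 : 0 ≤ ∑ x, v x ^ 2 := sum_nonneg fun x _ => sq_nonneg _
  linarith

/-- there are at most `card J` nonpositive eigenvalues -/
lemma neg_le (A : Matrix X X ℝ) (l : J → X → ℝ)
    (hpos : ∀ v : X → ℝ, v ≠ 0 → (∀ j, ∑ x, l j x * v x = 0) →
      0 < ∑ x, ∑ y, A x y * v x * v y)
    (lam : X → ℝ) (w : X → X → ℝ)
    (hO : ∀ i j, ∑ x, w i x * w j x = if i = j then 1 else 0)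
    (hC : ∀ x y, A x y = ∑ i, lam i * w i x * w i y) :
    (univ.filter (fun i => lam i ≤ 0)).card ≤ Fintype.card J := by
  by_contra hlt
  push Not at hlt
  obtain ⟨c, hc0, hcT, hcl⟩ := exists_supp (univ.filter (fun i => lam i ≤ 0)) hlt
    (fun j i => ∑ x, l j x * w i x)
  have hwv : ∀ i, ∑ x, w i x * (∑ j, c j * w j x) = c i := by
    intro i
    calc ∑ x, w i x * (∑ j, c j * w j x) = ∑ x, ∑ j, c j * (w i x * w j x) := by
          refine sum_congr rfl fun x _ => ?_
          rw [mul_sum]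
          exact sum_congr rfl fun j _ => by ring
      _ = ∑ j, ∑ x, c j * (w i x * w j x) := sum_comm
      _ = ∑ j, c j * (if i = j then 1 else 0) := by
          refine sum_congr rfl fun j _ => ?_
          rw [← mul_sum, hO]
      _ = c i := by simp
  have h1 := hpos (fun x => ∑ j, c j * w j x) (by
    intro h0
    apply hc0
    funext i
    rw [← hwv i]
    simp only [Pi.zero_apply]
    refine sum_eq_zero fun x _ => ?_
    have := congrFun h0 x
    simp only [Pi.zero_apply] at this
    rw [this]; ring) (by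
    intro j
    refine Eq.trans ?_ (hcl j)
    calc ∑ x, l j x * (∑ i, c i * w i x) = ∑ x, ∑ i, (l j x * w i x) * c i := by
          refine sum_congr rfl fun x _ => ?_
          rw [mul_sum]
          exact sum_congr rfl fun i _ => by ring
      _ = ∑ i, ∑ x, (l j x * w i x) * c i := sum_comm
      _ = ∑ i, (∑ x, l j x * w i x) * c i := by
          refine sum_congr rfl fun i _ => ?_
          rw [sum_mul])
  rw [quad lam w A hC univ] at h1
  have h2 : ∑ i, lam i * (∑ x, w i x * (∑ j, c j * w j x)) ^ 2 ≤ 0 := by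
    refine sum_nonpos fun i _ => ?_
    rw [hwv i]
    by_cases hi : lam i ≤ 0
    · nlinarith [sq_nonneg (c i)]
    · rw [hcT i (by simp [hi])]; simp
  linarith

/-- the negative part of the spectrum has trace norm at most `√k * n / 2` -/
lemma trace_bound (A : Matrix X X ℝ) (h01 : ∀ x y, A x y = 0 ∨ A x y = 1)
    (lam : X → ℝ) (w : X → X → ℝ)
    (hO : ∀ i j, ∑ x, w i x * w j x = if i = j then 1 else 0)
    (hO' : ∀ x y, ∑ i, w i x * w i y = if x = y then 1 else 0)
    (hC : ∀ x y, A x y = ∑ i, lam i * w i x * w i y) (k : ℝ)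
    (hk : ((univ.filter (fun i => lam i ≤ 0)).card : ℝ) ≤ k) :
    ∑ i ∈ univ.filter (fun i => lam i ≤ 0), (-lam i) ≤ Real.sqrt k * Fintype.card X / 2 := by
  set N : ℝ := (Fintype.card X : ℝ) with hN
  set Neg := univ.filter (fun i => lam i ≤ 0) with hNeg
  set Pos := univ.filter (fun i => ¬ lam i ≤ 0) with hPos
  have hN0 : 0 ≤ N := Nat.cast_nonneg _
  have hk0 : 0 ≤ k := le_trans (Nat.cast_nonneg _) hk
  set S : ℝ := ∑ x, ∑ y, A x y with hS
  have hfrob : ∑ i, lam i ^ 2 = S := by
    have e1 : ∀ i, ∑ x, ∑ y, A x y * w i x * w i y = lam i := by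
      intro i
      rw [quad lam w A hC univ (w i), sum_eq_single i]
      · rw [hO, if_pos rfl]; ring
      · intro j _ hj
        rw [hO, if_neg hj]; ring
      · intro h; exact absurd (mem_univ _) h
    calc ∑ i, lam i ^ 2 = ∑ i, lam i * ∑ x, ∑ y, A x y * w i x * w i y := by
          refine sum_congr rfl fun i _ => ?_
          rw [e1]; ring
      _ = ∑ i, ∑ x, ∑ y, A x y * (lam i * w i x * w i y) := by
          refine sum_congr rfl fun i _ => ?_
          rw [mul_sum]
          refine sum_congr rfl fun x _ => ?_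
          rw [mul_sum]
          refine sum_congr rfl fun y _ => ?_
          ring
      _ = ∑ x, ∑ i, ∑ y, A x y * (lam i * w i x * w i y) := sum_comm
      _ = ∑ x, ∑ y, ∑ i, A x y * (lam i * w i x * w i y) := sum_congr rfl fun x _ => sum_comm
      _ = S := by
          rw [hS]
          refine sum_congr rfl fun x _ => sum_congr rfl fun y _ => ?_
          rw [← mul_sum, ← hC]
          rcases h01 x y with h | h <;> rw [h] <;> norm_num
  have hSc : S = ∑ i, lam i * (∑ x, w i x) ^ 2 := by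
    have := quad lam w A hC univ (fun _ => 1)
    simpa using this
  have hcN : ∑ i, (∑ x, w i x) ^ 2 = N := by
    have := quad (fun _ => (1 : ℝ)) w (fun x y => if x = y then 1 else 0)
      (fun x y => by rw [← hO' x y]; simp) univ (fun _ => 1)
    simp only [mul_one, one_mul, sum_ite_eq, mem_univ, if_true, sum_const, card_univ,
      nsmul_eq_mul] at this
    rw [← this]
  have hsplit : ∀ f : X → ℝ, ∑ i, f i = ∑ i ∈ Neg, f i + ∑ i ∈ Pos, f i := by
    intro f
    rw [hNeg, hPos, sum_filter_add_sum_filter_not]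
  have hS0 : 0 ≤ S := by rw [← hfrob]; exact sum_nonneg fun i _ => sq_nonneg _
  have hc0 : ∀ i, 0 ≤ (∑ x, w i x) ^ 2 := fun i => sq_nonneg _
  have hcle : ∀ i, (∑ x, w i x) ^ 2 ≤ N := by
    intro i
    rw [← hcN]
    exact single_le_sum (f := fun i => (∑ x, w i x) ^ 2) (fun i _ => hc0 i) (mem_univ i)
  have hposN : ∑ i ∈ Pos, (∑ x, w i x) ^ 2 ≤ N := by
    rw [← hcN]
    exact sum_le_sum_of_subset_of_nonneg (subset_univ _) (fun i _ _ => hc0 i)
  have h1 : S ≤ ∑ i ∈ Pos, lam i * (∑ x, w i x) ^ 2 := by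
    rw [hSc, hsplit]
    have : ∑ i ∈ Neg, lam i * (∑ x, w i x) ^ 2 ≤ 0 := by
      refine sum_nonpos fun i hi => ?_
      have : lam i ≤ 0 := by simpa [hNeg] using hi
      exact mul_nonpos_of_nonpos_of_nonneg this (hc0 i)
    linarith
  have h2 : (∑ i ∈ Pos, lam i * (∑ x, w i x) ^ 2) ^ 2 ≤
      (∑ i ∈ Pos, lam i ^ 2) * ∑ i ∈ Pos, ((∑ x, w i x) ^ 2) ^ 2 := sum_mul_sq_le_sq_mul_sq _ _ _
  have h3 : ∑ i ∈ Pos, ((∑ x, w i x) ^ 2) ^ 2 ≤ N ^ 2 := by
    calc ∑ i ∈ Pos, ((∑ x, w i x) ^ 2) ^ 2 ≤ ∑ i ∈ Pos, N * (∑ x, w i x) ^ 2 := by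
          refine sum_le_sum fun i _ => ?_
          rw [sq]
          exact mul_le_mul_of_nonneg_right (hcle i) (hc0 i)
      _ = N * ∑ i ∈ Pos, (∑ x, w i x) ^ 2 := by rw [mul_sum]
      _ ≤ N * N := mul_le_mul_of_nonneg_left hposN hN0
      _ = N ^ 2 := by ring
  have hq0 : 0 ≤ ∑ i ∈ Pos, lam i ^ 2 := sum_nonneg fun i _ => sq_nonneg _
  have h4 : S ^ 2 ≤ (∑ i ∈ Pos, lam i ^ 2) * N ^ 2 := by
    calc S ^ 2 ≤ (∑ i ∈ Pos, lam i * (∑ x, w i x) ^ 2) ^ 2 := by
          exact pow_le_pow_left₀ hS0 h1 2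
      _ ≤ _ := h2
      _ ≤ _ := mul_le_mul_of_nonneg_left h3 hq0
  have h5 : ∑ i ∈ Neg, lam i ^ 2 + ∑ i ∈ Pos, lam i ^ 2 = S := by
    rw [← hsplit, hfrob]
  have hn0 : 0 ≤ ∑ i ∈ Neg, lam i ^ 2 := sum_nonneg fun i _ => sq_nonneg _
  have h6 : ∑ i ∈ Neg, lam i ^ 2 ≤ N ^ 2 / 4 := by
    rcases hN0.eq_or_lt with hz | hNpos
    · have : Fintype.card X = 0 := by
        have : (Fintype.card X : ℝ) = 0 := hz.symm
        exact_mod_cast this
      have : IsEmpty X := Fintype.card_eq_zero_iff.1 this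
      rw [Finset.eq_empty_of_isEmpty Neg]
      simp
      positivity
    · have hN2 : 0 < N ^ 2 := by positivity
      by_contra hcon
      push Not at hcon
      have e1 : ∑ i ∈ Pos, lam i ^ 2 < S - N ^ 2 / 4 := by linarith
      have e2 : (∑ i ∈ Pos, lam i ^ 2) * N ^ 2 < (S - N ^ 2 / 4) * N ^ 2 :=
        mul_lt_mul_of_pos_right e1 hN2
      nlinarith [sq_nonneg (S - N ^ 2 / 2)]
  have h7 : (∑ i ∈ Neg, (-lam i)) ^ 2 ≤ k * (N ^ 2 / 4) := by
    calc (∑ i ∈ Neg, (-lam i)) ^ 2 ≤ Neg.card * ∑ i ∈ Neg, (-lam i) ^ 2 :=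
          sq_sum_le_card_mul_sum_sq
      _ = Neg.card * ∑ i ∈ Neg, lam i ^ 2 := by simp
      _ ≤ k * (N ^ 2 / 4) := mul_le_mul hk h6 hn0 hk0
  have h8 : (Real.sqrt k * N / 2) ^ 2 = k * (N ^ 2 / 4) := by
    have := Real.sq_sqrt hk0
    calc (Real.sqrt k * N / 2) ^ 2 = (Real.sqrt k) ^ 2 * (N ^ 2 / 4) := by ring
      _ = k * (N ^ 2 / 4) := by rw [this]
  have h9 : 0 ≤ Real.sqrt k * N / 2 := by positivity
  exact le_of_abs_le (abs_le_of_sq_le_sq (by rw [h8]; exact h7) h9)

/-- the main bound: a 0/1 symmetric matrix with zero diagonal whose form is positive on the common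
kernel of `k` functionals has size at most `4 k (2 k ^ 2) ^ √k` -/
theorem core (A : Matrix X X ℝ) (hs : ∀ x y, A x y = A y x) (hd : ∀ x, A x x = 0)
    (h01 : ∀ x y, A x y = 0 ∨ A x y = 1) (l : J → X → ℝ)
    (hpos : ∀ v : X → ℝ, v ≠ 0 → (∀ j, ∑ x, l j x * v x = 0) →
      0 < ∑ x, ∑ y, A x y * v x * v y) :
    (Fintype.card X : ℝ) ≤ 4 * (Fintype.card J : ℝ) *
      (2 * (Fintype.card J : ℝ) ^ 2) ^ Real.sqrt (Fintype.card J : ℝ) := by
  rcases isEmpty_or_nonempty X with hX | hX
  · rw [Fintype.card_eq_zero]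
    simp only [Nat.cast_zero]
    positivity
  obtain ⟨x0⟩ := hX
  have hJ1 : 1 ≤ Fintype.card J := by
    have := indep_le A hd l hpos {x0} (by
      intro x hx y hy hxy
      rw [mem_singleton] at hx hy
      exact absurd (hx.trans hy.symm) hxy)
    simpa using this
  have hA : A.IsHermitian := by
    ext x y
    simp [Matrix.conjTranspose_apply, hs y x]
  obtain ⟨w, hO, hO', hC⟩ := spec A hA
  set lam := hA.eigenvalues with hlam
  set k : ℝ := (Fintype.card J : ℝ) with hk
  have hk1 : (1 : ℝ) ≤ k := by rw [hk]; exact_mod_cast hJ1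
  have hk0 : 0 < k := by linarith
  set Neg := univ.filter (fun i => lam i ≤ 0) with hNeg
  set Pos := univ.filter (fun i => ¬ lam i ≤ 0) with hPos
  have hnegk : (Neg.card : ℝ) ≤ k := by
    rw [hk]; exact_mod_cast neg_le A l hpos lam w hO hC
  have htr := trace_bound A h01 lam w hO hO' hC k hnegk
  set N : ℝ := (Fintype.card X : ℝ) with hN
  have hN0 : 0 < N := by
    rw [hN]; exact_mod_cast Fintype.card_pos_iff.2 ⟨x0⟩
  let M : X → X → ℝ := fun x y => ∑ i ∈ Neg, (-lam i) * w i x * w i y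
  let P : X → X → ℝ := fun x y => ∑ i ∈ Pos, lam i * w i x * w i y
  have hPM : ∀ x y, P x y = M x y + A x y := by
    intro x y
    have h1 : A x y = ∑ i ∈ Neg, lam i * w i x * w i y + ∑ i ∈ Pos, lam i * w i x * w i y := by
      rw [hC, hNeg, hPos, sum_filter_add_sum_filter_not]
    have h2 : M x y = - ∑ i ∈ Neg, lam i * w i x * w i y := by
      simp only [M]
      rw [← sum_neg_distrib]
      exact sum_congr rfl fun i _ => by ring
    rw [h2, h1]
    ring
  have hneg : ∀ i ∈ Neg, 0 ≤ -lam i := by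
    intro i hi
    have : lam i ≤ 0 := by simpa [hNeg] using hi
    linarith
  have hposl : ∀ i ∈ Pos, 0 ≤ lam i := by
    intro i hi
    have : ¬ lam i ≤ 0 := by simpa [hPos] using hi
    linarith
  have hMtr : ∑ x, M x x = ∑ i ∈ Neg, (-lam i) := by
    simp only [M]
    rw [sum_comm]
    refine sum_congr rfl fun i _ => ?_
    have : ∀ x, -lam i * w i x * w i x = -lam i * (w i x * w i x) := fun x => by ring
    simp_rw [this]
    rw [← mul_sum, hO, if_pos rfl, mul_one]
  have hMxx : ∀ x, 0 ≤ M x x := by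
    intro x
    refine sum_nonneg fun i hi => ?_
    rw [mul_assoc]
    exact mul_nonneg (hneg i hi) (mul_self_nonneg _)
  set sk := Real.sqrt k with hsk
  have hsk1 : 0 < sk := Real.sqrt_pos.2 hk0
  set V := univ.filter (fun x => M x x ≤ sk) with hV
  have hVc : N / 2 ≤ (V.card : ℝ) := by
    have h1 : ((univ.filter (fun x => ¬ M x x ≤ sk)).card : ℝ) * sk ≤ ∑ x, M x x := by
      calc ((univ.filter (fun x => ¬ M x x ≤ sk)).card : ℝ) * sk
          = ∑ x ∈ univ.filter (fun x => ¬ M x x ≤ sk), sk := by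
            rw [sum_const, nsmul_eq_mul]
        _ ≤ ∑ x ∈ univ.filter (fun x => ¬ M x x ≤ sk), M x x := by
            refine sum_le_sum fun x hx => ?_
            have : ¬ M x x ≤ sk := by simpa using hx
            exact (not_le.1 this).le
        _ ≤ ∑ x, M x x := sum_le_sum_of_subset_of_nonneg (subset_univ _) (fun x _ _ => hMxx x)
    have h2 : (V.card : ℝ) + ((univ.filter (fun x => ¬ M x x ≤ sk)).card : ℝ) = N := by
      have := Finset.card_filter_add_card_filter_not (s := (univ : Finset X)) (fun x => M x x ≤ sk)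
      rw [card_univ] at this
      rw [hN, ← this]
      push_cast
      rfl
    have h3 : ((univ.filter (fun x => ¬ M x x ≤ sk)).card : ℝ) * sk ≤ (N / 2) * sk := by
      rw [hMtr] at h1
      linarith
    have h4 := le_of_mul_le_mul_right h3 hsk1
    linarith
  have hVpos : 0 < (V.card : ℝ) := by linarith [half_pos hN0]
  set t := Real.log (2 * k ^ 2) with ht
  have h2k : 1 ≤ 2 * k ^ 2 := by nlinarith
  have ht0 : 0 ≤ t := Real.log_nonneg h2k
  have het : Real.exp t = 2 * k ^ 2 := Real.exp_log (by positivity)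
  let E : X → X → ℝ := fun x y => Real.exp (t * M x y)
  -- copositivity from cliques
  have hcop1 : Cop V (fun x y => (k + 1) * (1 - A x y) - 1) := by
    intro v hv
    have h := motzkin (fun x y => 1 - A x y) (fun x y => by rw [hs x y]) (fun x => by rw [hd]; ring)
      (fun x y => by rcases h01 x y with h | h <;> rw [h] <;> norm_num) (Fintype.card J + 1)
      V.card V rfl (by
        intro T _ hT
        refine clique_le A hd l hpos T fun x hx y hy hxy => ?_
        have := hT x hx y hy hxy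
        linarith) v hv
    have e : ∑ x ∈ V, ∑ y ∈ V, ((k + 1) * (1 - A x y) - 1) * v x * v y =
        (k + 1) * ∑ x ∈ V, ∑ y ∈ V, (1 - A x y) * v x * v y - (∑ x ∈ V, v x) ^ 2 := by
      rw [sq, sum_mul_sum, mul_sum, ← sum_sub_distrib]
      refine sum_congr rfl fun x _ => ?_
      rw [mul_sum, ← sum_sub_distrib]
      exact sum_congr rfl fun y _ => by ring
    rw [e]
    push_cast at h
    rw [← hk] at h
    linarith
  have hcop2 : Cop V (fun x y => k * (A x y + if x = y then 1 else 0) - 1) := by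
    intro v hv
    have h := motzkin (fun x y => A x y + if x = y then 1 else 0)
      (fun x y => by
        rw [hs x y]
        by_cases hxy : x = y
        · simp [hxy]
        · simp [hxy, Ne.symm hxy])
      (fun x => by rw [hd]; simp)
      (fun x y => by
        by_cases hxy : x = y
        · subst hxy; rw [hd]; simp
        · rcases h01 x y with h | h <;> rw [h] <;> simp [hxy]) (Fintype.card J)
      V.card V rfl (by
        intro T _ hT
        refine indep_le A hd l hpos T fun x hx y hy hxy => ?_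
        have := hT x hx y hy hxy
        simpa [hxy] using this) v hv
    have e : ∑ x ∈ V, ∑ y ∈ V, (k * (A x y + if x = y then 1 else 0) - 1) * v x * v y =
        k * ∑ x ∈ V, ∑ y ∈ V, (A x y + if x = y then 1 else 0) * v x * v y -
          (∑ x ∈ V, v x) ^ 2 := by
      rw [sq, sum_mul_sum, mul_sum, ← sum_sub_distrib]
      refine sum_congr rfl fun x _ => ?_
      rw [mul_sum, ← sum_sub_distrib]
      exact sum_congr rfl fun y _ => by ring
    rw [e]
    rw [← hk] at h
    linarith
  set a := ∑ x ∈ V, ∑ y ∈ V, (1 - A x y) * E x y with ha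
  set b := ∑ x ∈ V, ∑ y ∈ V, A x y * E x y with hb
  set dg := ∑ x ∈ V, E x x with hdg
  have hE0 : ∀ x y, 0 < E x y := fun x y => Real.exp_pos _
  have hA0 : ∀ x y, 0 ≤ A x y := by
    intro x y
    rcases h01 x y with h | h <;> rw [h]
    exact zero_le_one
  have hb0 : 0 ≤ b := sum_nonneg fun x _ => sum_nonneg fun y _ =>
    mul_nonneg (hA0 x y) (hE0 x y).le
  have I1 : 0 ≤ k * a - Real.exp t * b := by
    have h := cop_sum V _ hcop1 Pos (fun i x => Real.sqrt (t * lam i) * w i x)
    refine h.trans (le_of_eq ?_)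
    rw [ha, hb, mul_sum, mul_sum, ← sum_sub_distrib]
    refine sum_congr rfl fun x _ => ?_
    rw [mul_sum, mul_sum, ← sum_sub_distrib]
    refine sum_congr rfl fun y _ => ?_
    have e1 : ∑ i ∈ Pos, Real.sqrt (t * lam i) * w i x * (Real.sqrt (t * lam i) * w i y) =
        t * M x y + t * A x y := by
      rw [← mul_add, ← hPM]
      simp only [P]
      rw [mul_sum]
      refine sum_congr rfl fun i hi => ?_
      have := Real.mul_self_sqrt (mul_nonneg ht0 (hposl i hi))
      calc Real.sqrt (t * lam i) * w i x * (Real.sqrt (t * lam i) * w i y)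
          = (Real.sqrt (t * lam i) * Real.sqrt (t * lam i)) * (w i x * w i y) := by ring
        _ = t * (lam i * w i x * w i y) := by rw [this]; ring
    rw [e1, Real.exp_add]
    simp only [E]
    rcases h01 x y with h | h <;> rw [h]
    · simp
    · simp; ring
  have I2 : 0 ≤ k * b + k * dg - (a + b) := by
    have h := cop_sum V _ hcop2 Neg (fun i x => Real.sqrt (t * (-lam i)) * w i x)
    refine h.trans (le_of_eq ?_)
    have e2 : dg = ∑ x ∈ V, ∑ y ∈ V, (if x = y then 1 else 0) * E x y := by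
      rw [hdg]
      refine sum_congr rfl fun x hx => ?_
      simp [hx]
    rw [e2, ha, hb, mul_sum, mul_sum, ← sum_add_distrib, ← sum_add_distrib, ← sum_sub_distrib]
    refine sum_congr rfl fun x _ => ?_
    rw [mul_sum, mul_sum, ← sum_add_distrib, ← sum_add_distrib, ← sum_sub_distrib]
    refine sum_congr rfl fun y _ => ?_
    have e1 : ∑ i ∈ Neg, Real.sqrt (t * (-lam i)) * w i x * (Real.sqrt (t * (-lam i)) * w i y) =
        t * M x y := by
      simp only [M]
      rw [mul_sum]
      refine sum_congr rfl fun i hi => ?_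
      have := Real.mul_self_sqrt (mul_nonneg ht0 (hneg i hi))
      calc Real.sqrt (t * (-lam i)) * w i x * (Real.sqrt (t * (-lam i)) * w i y)
          = (Real.sqrt (t * (-lam i)) * Real.sqrt (t * (-lam i))) * (w i x * w i y) := by ring
        _ = t * (-lam i * w i x * w i y) := by rw [this]; ring
    rw [e1]
    simp only [E]
    ring
  have I3 : (V.card : ℝ) ^ 2 ≤ a + b := by
    have h1 : 0 ≤ ∑ x ∈ V, ∑ y ∈ V, M x y := by
      have := quad (ι := {i // i ∈ Neg}) (fun i => -lam i.1) (fun i => w i.1) M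
        (fun x y => by
          simp only [M]
          rw [← sum_coe_sort Neg]) V (fun _ => 1)
      simp only [mul_one] at this
      rw [this]
      exact sum_nonneg fun i _ => mul_nonneg (hneg i.1 i.2) (sq_nonneg _)
    have h2 : a + b = ∑ x ∈ V, ∑ y ∈ V, E x y := by
      rw [ha, hb, ← sum_add_distrib]
      refine sum_congr rfl fun x _ => ?_
      rw [← sum_add_distrib]
      exact sum_congr rfl fun y _ => by ring
    rw [h2]
    calc (V.card : ℝ) ^ 2 ≤ ∑ x ∈ V, ∑ y ∈ V, (1 : ℝ) + t * ∑ x ∈ V, ∑ y ∈ V, M x y := by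
          have : ∑ x ∈ V, ∑ y ∈ V, (1 : ℝ) = (V.card : ℝ) ^ 2 := by
            simp [sq]
          rw [this]
          have := mul_nonneg ht0 h1
          linarith
      _ = ∑ x ∈ V, ∑ y ∈ V, (1 + t * M x y) := by
          rw [mul_sum, ← sum_add_distrib]
          refine sum_congr rfl fun x _ => ?_
          rw [mul_sum, ← sum_add_distrib]
      _ ≤ ∑ x ∈ V, ∑ y ∈ V, E x y := by
          refine sum_le_sum fun x _ => sum_le_sum fun y _ => ?_
          have := Real.add_one_le_exp (t * M x y)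
          simp only [E]
          linarith
  have hdgle : dg ≤ V.card * Real.exp (t * sk) := by
    calc dg ≤ ∑ x ∈ V, Real.exp (t * sk) := by
          refine sum_le_sum fun x hx => ?_
          have : M x x ≤ sk := by simpa [hV] using hx
          exact Real.exp_le_exp.2 (mul_le_mul_of_nonneg_left this ht0)
      _ = V.card * Real.exp (t * sk) := by rw [sum_const, nsmul_eq_mul]
  rw [het] at I1
  have I4 : 2 * k * b ≤ a := by
    have : k * (2 * k * b) ≤ k * a := by nlinarith
    exact le_of_mul_le_mul_left this hk0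
  have I5 : (V.card : ℝ) ^ 2 ≤ 2 * k * dg := by linarith
  have I6 : (V.card : ℝ) ^ 2 ≤ 2 * k * (V.card * Real.exp (t * sk)) :=
    I5.trans (mul_le_mul_of_nonneg_left hdgle (by positivity))
  have I7 : (V.card : ℝ) ≤ 2 * k * Real.exp (t * sk) := by
    have : (V.card : ℝ) * V.card ≤ V.card * (2 * k * Real.exp (t * sk)) := by nlinarith
    exact le_of_mul_le_mul_left this hVpos
  have I8 : (2 * k ^ 2) ^ sk = Real.exp (t * sk) := by
    rw [Real.rpow_def_of_pos (by positivity)]
  rw [I8]
  linarith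

end Pool.Agent.V7H22.NPU
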